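import Mathlib

/-!
# Non-transversality sets of jets of submanifolds: a smooth counterexample

`X = Y = ℝ`, `n = 1`, `p = 2`.
-/

set_option autoImplicit false

open Set Topology
open scoped ContDiff

namespace Pool.Agent.Results.MP_5de00f_gt.SmoothDisproof

/-- The manifold `J^k(ℝ, ℝ)` of `k`-jets of smooth maps `ℝ → ℝ`, in its standard global chart: the
jet `j^k_x f` has the coordinates `(x, (f x, f' x, ..., f^(k) x))`. -/
abbrev J (k : ℕ) : Type := ℝ × (Fin (k + 1) → ℝ)

/-- The `k`-jet extension `j^k f : ℝ → J^k(ℝ, ℝ)` of `f`. -/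
noncomputable def jet (k : ℕ) (f : ℝ → ℝ) (x : ℝ) : J k :=
  (x, fun i => iteratedDeriv i f x)

section general

variable {V : Type} [NormedAddCommGroup V] [NormedSpace ℝ V]

/-- `A` is an embedded `C^r` submanifold of codimension `c` of `V`: around each point of `A` there
is a `C^r` chart of `V` which straightens `A` to a linear subspace of codimension `c`. -/
def IsSubmanifold (r : ℕ∞) (c : ℕ) (A : Set V) : Prop :=
  ∀ a ∈ A, ∃ (φ : OpenPartialHomeomorph V V) (L : Submodule ℝ V),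
    a ∈ φ.source ∧ ContDiffOn ℝ r φ φ.source ∧ ContDiffOn ℝ r φ.symm φ.target ∧
    Module.finrank ℝ L + c = Module.finrank ℝ V ∧ φ.source ∩ A = φ.source ∩ φ ⁻¹' L

/-- `S` is a topological submanifold of `V` in the weakest sense: with the subspace topology, every
point of `S` has an open neighbourhood homeomorphic to an open subset of some `ℝ^d`. (Every
embedded `C^k` submanifold, `0 ≤ k ≤ ∞`, of any codimension is one; the dimension is even allowed
to vary from point to point.) -/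
def IsTopSubmanifold (S : Set V) : Prop :=
  ∀ x : S, ∃ (d : ℕ) (e : OpenPartialHomeomorph S (EuclideanSpace ℝ (Fin d))), x ∈ e.source

/-- The tangent space `T_b A`: the span of the velocities at `b` of the curves in `A` through
`b`. -/
def tangentTo (A : Set V) (b : V) : Submodule ℝ V :=
  Submodule.span ℝ {v | ∃ γ : ℝ → V, γ 0 = b ∧ (∀ᶠ t in 𝓝 (0 : ℝ), γ t ∈ A) ∧ HasDerivAt γ v 0}

end general

/-- The non-transversality set of `A ⊆ J^p(ℝ, ℝ)` in `J^{p+1}(ℝ, ℝ)`: all jets
`z = j^{p+1}_x f` such that `j^p_x f ∈ A` and `j^p f` is not transverse to `A` at `x`, that is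
`d_x(j^p f)(T_x ℝ) + T_b A ≠ T_b J^p(ℝ, ℝ)` for `b = j^p_x f`. -/
def nonTransverse (p : ℕ) (A : Set (J p)) : Set (J (p + 1)) :=
  {z | ∃ (f : ℝ → ℝ) (x : ℝ), ContDiff ℝ ∞ f ∧ z = jet (p + 1) f x ∧ jet p f x ∈ A ∧
    (fderiv ℝ (jet p f) x).range ⊔ tangentTo A (jet p f x) ≠ ⊤}

/-! ### A closed, nowhere dense, uncountable set of reals -/

lemma exists_closed_uncountable :
    ∃ K : Set ℝ, IsClosed K ∧ ¬ K.Countable ∧ interior K = ∅ := by
  have h0 : MeasureTheory.volume (Set.range ((↑) : ℚ → ℝ)) < 1 := by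
    rw [(Set.countable_range _).measure_zero]
    exact zero_lt_one
  obtain ⟨U, hU, hUo, hUv⟩ := Set.exists_isOpen_lt_of_lt _ _ h0
  refine ⟨Uᶜ, hUo.isClosed_compl, ?_, ?_⟩
  · intro hc
    have h1 : MeasureTheory.volume (Uᶜ) = 0 := hc.measure_zero _
    have h2 : MeasureTheory.volume (Set.univ : Set ℝ) ≤
        MeasureTheory.volume U + MeasureTheory.volume (Uᶜ) := by
      rw [← Set.union_compl_self U]
      exact MeasureTheory.measure_union_le _ _
    rw [h1, add_zero, Real.volume_univ] at h2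
    exact absurd (lt_of_le_of_lt h2 hUv) (by simp)
  · rw [interior_compl, Set.compl_empty_iff]
    apply Set.eq_univ_of_univ_subset
    have hd : Dense (Set.range ((↑) : ℚ → ℝ)) := Rat.denseRange_cast
    rw [← hd.closure_eq]
    exact closure_mono hU

/-! ### Topological submanifolds and totally disconnected projections -/

lemma subsingleton_of_preconnected {K T : Set ℝ} (hK : interior K = ∅) (hT : T ⊆ K)
    (hc : IsPreconnected T) : T.Subsingleton := by
  have key : ∀ a ∈ T, ∀ b ∈ T, ¬ a < b := by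
    intro a ha b hb hab
    have h1 : Icc a b ⊆ T := hc.Icc_subset ha hb
    have h2 : Ioo a b ⊆ interior K :=
      isOpen_Ioo.subset_interior_iff.mpr ((Ioo_subset_Icc_self.trans h1).trans hT)
    rw [hK] at h2
    obtain ⟨c, hc⟩ := exists_between hab
    exact h2 hc
  intro a ha b hb
  rcases lt_trichotomy a b with h | h | h
  · exact absurd h (key a ha b hb)
  · exact h
  · exact absurd h (key b hb a ha)

/-- Arbitrarily small connected neighbourhoods in `S`. -/
def SmallConn {V : Type} [TopologicalSpace V] (S : Set V) : Prop :=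
  ∀ z ∈ S, ∀ W : Set V, IsOpen W → z ∈ W → ∃ N ∈ 𝓝[S] z, N ⊆ S ∩ W ∧ IsPreconnected N

lemma smallConn_of_isTopSubmanifold {V : Type} [NormedAddCommGroup V] [NormedSpace ℝ V]
    {S : Set V} (hS : IsTopSubmanifold S) : SmallConn S := by
  intro z hzS W hW hzW
  obtain ⟨d, e, he⟩ := hS ⟨z, hzS⟩
  have hO : IsOpen {y : S | (y : V) ∈ W} := hW.preimage continuous_subtype_val
  have hO' : IsOpen (e.target ∩ e.symm ⁻¹' {y : S | (y : V) ∈ W}) :=
    e.isOpen_inter_preimage_symm hO
  have hm : e ⟨z, hzS⟩ ∈ e.target ∩ e.symm ⁻¹' {y : S | (y : V) ∈ W} := by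
    refine ⟨e.map_source he, ?_⟩
    simp only [mem_preimage, e.left_inv he]
    exact hzW
  obtain ⟨ε, hε, hb⟩ := Metric.isOpen_iff.mp hO' _ hm
  set N : Set S := e.symm '' Metric.ball (e ⟨z, hzS⟩) ε with hN
  have hNo : IsOpen N := e.symm.isOpen_image_of_subset_source Metric.isOpen_ball
    (fun y hy => (hb hy).1)
  have hzN : (⟨z, hzS⟩ : S) ∈ N := ⟨e ⟨z, hzS⟩, Metric.mem_ball_self hε, e.left_inv he⟩
  have hNc : IsPreconnected N := by
    apply (convex_ball _ _).isPreconnected.image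
    exact e.continuousOn_symm.mono (fun y hy => (hb hy).1)
  refine ⟨(↑) '' N, mem_nhds_subtype_iff_nhdsWithin.mp (hNo.mem_nhds hzN), ?_,
    hNc.image _ continuous_subtype_val.continuousOn⟩
  rintro _ ⟨y, ⟨w, hw, rfl⟩, rfl⟩
  exact ⟨Subtype.coe_prop _, (hb hw).2⟩

lemma smallConn_of_isSubmanifold {V : Type} [NormedAddCommGroup V] [NormedSpace ℝ V]
    {S : Set V} {k : ℕ∞} {c : ℕ} (hS : IsSubmanifold k c S) : SmallConn S := by
  intro z hzS W hW hzW
  obtain ⟨φ, L, hz, -, -, -, hφ⟩ := hS z hzS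
  have hm : φ z ∈ φ.target ∩ φ.symm ⁻¹' W := by
    refine ⟨φ.map_source hz, ?_⟩
    simp only [mem_preimage, φ.left_inv hz]
    exact hzW
  obtain ⟨ε, hε, hb⟩ := Metric.isOpen_iff.mp (φ.isOpen_inter_preimage_symm hW) _ hm
  have hB : IsOpen (φ.symm '' Metric.ball (φ z) ε) :=
    φ.symm.isOpen_image_of_subset_source Metric.isOpen_ball (fun y hy => (hb hy).1)
  refine ⟨φ.symm '' (Metric.ball (φ z) ε ∩ L), ?_, ?_, ?_⟩
  · have h1 : φ.symm '' Metric.ball (φ z) ε ∈ 𝓝 z :=
      hB.mem_nhds ⟨φ z, Metric.mem_ball_self hε, φ.left_inv hz⟩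
    filter_upwards [mem_nhdsWithin_of_mem_nhds h1, self_mem_nhdsWithin] with y hy hyS
    obtain ⟨w, hw, rfl⟩ := hy
    refine ⟨w, ⟨hw, ?_⟩, rfl⟩
    have h2 : φ.symm w ∈ φ.source ∩ S := ⟨φ.map_target (hb hw).1, hyS⟩
    rw [hφ] at h2
    have h3 := h2.2
    rwa [mem_preimage, φ.right_inv (hb hw).1] at h3
  · rintro _ ⟨w, ⟨hw, hwL⟩, rfl⟩
    refine ⟨?_, (hb hw).2⟩
    have h2 : φ.symm w ∈ φ.source ∩ φ ⁻¹' L := by
      refine ⟨φ.map_target (hb hw).1, ?_⟩
      rw [mem_preimage, φ.right_inv (hb hw).1]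
      exact hwL
    rw [← hφ] at h2
    exact h2.2
  · apply ((convex_ball _ _).inter L.convex).isPreconnected.image
    exact φ.continuousOn_symm.mono (fun y hy => (hb hy.1).1)

lemma countable_image {V : Type} [TopologicalSpace V]
    [SecondCountableTopology V] {S : Set V} (hS : SmallConn S) {W : Set V} (hW : IsOpen W)
    {K : Set ℝ} (hK : interior K = ∅) {q : V → ℝ} (hq : Continuous q)
    (hqK : ∀ z ∈ S ∩ W, q z ∈ K) : (q '' (S ∩ W)).Countable := by
  have key : ∀ z ∈ S ∩ W, ∃ N ∈ 𝓝[S ∩ W] z, ∀ y ∈ N, q y = q z := by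
    rintro z ⟨hzS, hzW⟩
    obtain ⟨N, hN, hNW, hNc⟩ := hS z hzS W hW hzW
    have hsub : (q '' N).Subsingleton := by
      apply subsingleton_of_preconnected hK
      · rintro _ ⟨y, hy, rfl⟩
        exact hqK _ (hNW hy)
      · exact hNc.image _ hq.continuousOn
    refine ⟨N, nhdsWithin_mono z inter_subset_left hN, fun y hy => ?_⟩
    exact hsub ⟨y, hy, rfl⟩ ⟨z, mem_of_mem_nhdsWithin hzS hN, rfl⟩
  choose! N hN hNq using key
  obtain ⟨t, ht, htc, hcov⟩ := TopologicalSpace.countable_cover_nhdsWithin hN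
  refine (htc.image q).mono ?_
  rintro _ ⟨y, hy, rfl⟩
  obtain ⟨z, hz, hyz⟩ := mem_iUnion₂.mp (hcov hy)
  exact ⟨z, hz, (hNq z (ht hz) y hyz).symm⟩

/-! ### Graphs over the last coordinates -/

section graph

/-- The direction of the coordinate `y`. -/
def e0 : J 2 := (0, Pi.single 0 1)

/-- The coordinate `y`. -/
def proj0 : J 2 →L[ℝ] ℝ :=
  (ContinuousLinearMap.proj (R := ℝ) (φ := fun _ : Fin 3 => ℝ) 0).comp
    (ContinuousLinearMap.snd ℝ ℝ (Fin 3 → ℝ))

@[simp] lemma proj0_apply (z : J 2) : proj0 z = z.2 0 := rfl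

variable (g : J 2 → ℝ)

/-- The graph `y = g`. -/
def graphSet : Set (J 2) := {z | z.2 0 = g z}

/-- The defining equation of the graph. -/
def eqn (z : J 2) : ℝ := z.2 0 - g z

variable {g}

/-- The straightening diffeomorphism. -/
def straight (hg : ContDiff ℝ ∞ g) (hg0 : ∀ (z : J 2) (c : ℝ), g (z + c • e0) = g z) : J 2 ≃ₜ J 2 where
  toFun z := z - g z • e0
  invFun z := z + g z • e0
  left_inv z := by
    have : g (z - g z • e0) = g z := by
      have := hg0 z (-(g z))
      rwa [neg_smul, ← sub_eq_add_neg] at this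
    simp only [this, sub_add_cancel]
  right_inv z := by simp only [hg0, add_sub_cancel_right]
  continuous_toFun := by have := hg.continuous; fun_prop
  continuous_invFun := by have := hg.continuous; fun_prop

lemma isSubmanifold_graph (hg : ContDiff ℝ ∞ g) (hg0 : ∀ (z : J 2) (c : ℝ), g (z + c • e0) = g z) (r : ℕ∞) :
    IsSubmanifold r 1 (graphSet g) := by
  intro a _
  have hr : ContDiff ℝ r g := hg.of_le (by exact_mod_cast le_top)
  refine ⟨(straight hg hg0).toOpenPartialHomeomorph, LinearMap.ker (proj0 : J 2 →ₗ[ℝ] ℝ),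
    by simp, ?_, ?_, ?_, ?_⟩
  · apply ContDiff.contDiffOn
    change ContDiff ℝ r (fun z => z - g z • e0)
    fun_prop
  · apply ContDiff.contDiffOn
    change ContDiff ℝ r (fun z => z + g z • e0)
    fun_prop
  · apply Module.Dual.finrank_ker_add_one_of_ne_zero
    intro h
    have := congrArg (fun l => l e0) h
    simp [e0] at this
  · ext z
    simp only [Homeomorph.toOpenPartialHomeomorph_source, univ_inter, graphSet,
      mem_preimage, SetLike.mem_coe, LinearMap.mem_ker]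
    change _ ↔ (z - g z • e0).2 0 = 0
    simp [e0, sub_eq_zero]

lemma eqn_sub (hg0 : ∀ (z : J 2) (c : ℝ), g (z + c • e0) = g z) (z : J 2) : eqn g (z - eqn g z • e0) = 0 := by
  have h : g (z - eqn g z • e0) = g z := by
    have := hg0 z (-(eqn g z))
    rwa [neg_smul, ← sub_eq_add_neg] at this
  simp only [eqn] at h ⊢
  rw [h]
  simp [e0]

lemma contDiff_eqn (hg : ContDiff ℝ ∞ g) : ContDiff ℝ ∞ (eqn g) := by
  unfold eqn
  fun_prop

lemma tangentTo_graph (hg : ContDiff ℝ ∞ g) (hg0 : ∀ (z : J 2) (c : ℝ), g (z + c • e0) = g z) {b : J 2}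
    (hb : b ∈ graphSet g) : tangentTo (graphSet g) b = (fderiv ℝ (eqn g) b).ker := by
  have hd : HasFDerivAt (eqn g) (fderiv ℝ (eqn g) b) b :=
    ((contDiff_eqn hg).differentiable (by simp) b).hasFDerivAt
  have hb0 : eqn g b = 0 := sub_eq_zero.mpr hb
  apply le_antisymm
  · apply Submodule.span_le.mpr
    rintro v ⟨γ, hγ0, hγ, hγv⟩
    subst hγ0
    have h1 : HasDerivAt (eqn g ∘ γ) (fderiv ℝ (eqn g) (γ 0) v) 0 := hd.comp_hasDerivAt 0 hγv
    have h2 : HasDerivAt (eqn g ∘ γ) 0 0 := by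
      apply (hasDerivAt_const (0 : ℝ) (0 : ℝ)).congr_of_eventuallyEq
      filter_upwards [hγ] with t ht
      exact sub_eq_zero.mpr ht
    exact h1.unique h2
  · intro v hv
    apply Submodule.subset_span
    refine ⟨fun t => (b + t • v) - eqn g (b + t • v) • e0, by simp [hb0], ?_, ?_⟩
    · apply Filter.Eventually.of_forall
      intro t
      exact sub_eq_zero.mp (eqn_sub hg0 (b + t • v))
    · have h1 : HasDerivAt (fun t : ℝ => b + t • v) v 0 := by
        simpa using ((hasDerivAt_id (0 : ℝ)).smul_const v).const_add b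
      have hd' : HasFDerivAt (eqn g) (fderiv ℝ (eqn g) b) (b + (0 : ℝ) • v) := by simpa using hd
      have h2 : HasDerivAt (eqn g ∘ fun t : ℝ => b + t • v) (fderiv ℝ (eqn g) b v) 0 :=
        hd'.comp_hasDerivAt (0 : ℝ) h1
      have hv' : fderiv ℝ (eqn g) b v = 0 := hv
      rw [hv'] at h2
      have h3 := h1.fun_sub (h2.smul_const e0)
      simpa using h3

end graph

/-! ### The example -/

/-- The function whose graph is the counterexample. -/
noncomputable def gfun (h : ℝ → ℝ) (z : J 2) : ℝ :=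
  z.1 * z.2 1 - z.1 ^ 2 / 2 * z.2 2 - z.1 * (h (z.2 2)) ^ 2

lemma contDiff_gfun {h : ℝ → ℝ} (hh : ContDiff ℝ ∞ h) : ContDiff ℝ ∞ (gfun h) := by
  unfold gfun
  fun_prop

lemma gfun_add (h : ℝ → ℝ) (z : J 2) (c : ℝ) : gfun h (z + c • e0) = gfun h z := by
  simp [gfun, e0]

/-- The velocity of the jet extension. -/
lemma hasDerivAt_jet {f : ℝ → ℝ} (hf : ContDiff ℝ ∞ f) (k : ℕ) (x : ℝ) :
    HasDerivAt (jet k f) ((1 : ℝ), fun i => iteratedDeriv (i + 1) f x) x := by
  apply HasDerivAt.prodMk (hasDerivAt_id x)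
  apply hasDerivAt_pi.mpr
  intro i
  have h1 : DifferentiableAt ℝ (iteratedDeriv i f) x :=
    (hf.differentiable_iteratedDeriv i (by exact_mod_cast WithTop.coe_lt_top _)) x
  have h2 := h1.hasDerivAt
  rwa [← iteratedDeriv_succ] at h2

lemma nonTransverse_iff {g : J 2 → ℝ} (hg : ContDiff ℝ ∞ g)
    (hg0 : ∀ (z : J 2) (c : ℝ), g (z + c • e0) = g z) (z : J 3) :
    z ∈ nonTransverse 2 (graphSet g) ↔ ∃ (f : ℝ → ℝ) (x : ℝ), ContDiff ℝ ∞ f ∧ z = jet 3 f x ∧
      jet 2 f x ∈ graphSet g ∧ HasDerivAt (eqn g ∘ jet 2 f) 0 x := by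
  have key : ∀ (f : ℝ → ℝ) (x : ℝ), ContDiff ℝ ∞ f → jet 2 f x ∈ graphSet g →
      ((fderiv ℝ (jet 2 f) x).range ⊔ tangentTo (graphSet g) (jet 2 f x) ≠ ⊤ ↔
        HasDerivAt (eqn g ∘ jet 2 f) 0 x) := by
    intro f x hf hb
    have hd : HasFDerivAt (eqn g) (fderiv ℝ (eqn g) (jet 2 f x)) (jet 2 f x) :=
      ((contDiff_eqn hg).differentiable (by simp) _).hasFDerivAt
    have hj := hasDerivAt_jet hf 2 x
    set u : J 2 := ((1 : ℝ), fun i => iteratedDeriv (i + 1) f x) with hu
    have hc : HasDerivAt (eqn g ∘ jet 2 f) (fderiv ℝ (eqn g) (jet 2 f x) u) x :=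
      hd.comp_hasDerivAt x hj
    have hiff : HasDerivAt (eqn g ∘ jet 2 f) 0 x ↔ fderiv ℝ (eqn g) (jet 2 f x) u = 0 :=
      ⟨fun h => hc.unique h, fun h => h ▸ hc⟩
    rw [hiff, tangentTo_graph hg hg0 hb]
    have hfd : fderiv ℝ (jet 2 f) x = ContinuousLinearMap.toSpanSingleton ℝ u :=
      hj.hasFDerivAt.fderiv
    set l := fderiv ℝ (eqn g) (jet 2 f x) with hl
    constructor
    · intro hne
      by_contra hcon
      apply hne
      rw [eq_top_iff]
      intro v _
      have h1 : v = ((l v) / (l u)) • u + (v - ((l v) / (l u)) • u) := by abel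
      rw [h1]
      apply Submodule.add_mem_sup
      · rw [hfd]
        exact ⟨(l v) / (l u), by simp⟩
      · change l (v - ((l v) / (l u)) • u) = 0
        rw [map_sub, map_smul, smul_eq_mul, div_mul_cancel₀ _ hcon, sub_self]
    · intro hu0 htop
      have hle : (fderiv ℝ (jet 2 f) x).range ⊔ l.ker ≤ l.ker := by
        apply sup_le _ le_rfl
        rw [hfd]
        rintro _ ⟨c, rfl⟩
        change l _ = 0
        simp [hu0]
      rw [htop] at hle
      have h1 : l e0 = 0 := hle (Submodule.mem_top : e0 ∈ ⊤)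
      have h2 : HasDerivAt (eqn g ∘ fun t : ℝ => jet 2 f x + t • e0) (l e0) 0 := by
        have h3 : HasDerivAt (fun t : ℝ => jet 2 f x + t • e0) e0 0 := by
          simpa using ((hasDerivAt_id (0 : ℝ)).smul_const e0).const_add (jet 2 f x)
        have hd' : HasFDerivAt (eqn g) l (jet 2 f x + (0 : ℝ) • e0) := by simpa using hd
        exact hd'.comp_hasDerivAt (0 : ℝ) h3
      have h4 : (eqn g ∘ fun t : ℝ => jet 2 f x + t • e0) =
          fun t => (jet 2 f x).2 0 + t - g (jet 2 f x) := by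
        funext t
        simp only [Function.comp_apply, eqn, hg0]
        simp [e0]
      rw [h4] at h2
      have h5 : HasDerivAt (fun t : ℝ => (jet 2 f x).2 0 + t - g (jet 2 f x)) 1 0 := by
        simpa using ((hasDerivAt_id (0 : ℝ)).const_add ((jet 2 f x).2 0)).sub_const (g (jet 2 f x))
      have := h2.unique h5
      rw [h1] at this
      exact zero_ne_one this
  constructor
  · rintro ⟨f, x, hf, hz, hb, hne⟩
    exact ⟨f, x, hf, hz, hb, (key f x hf hb).mp hne⟩
  · rintro ⟨f, x, hf, hz, hb, hne⟩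
    exact ⟨f, x, hf, hz, hb, (key f x hf hb).mpr hne⟩

/-- The derivative of the defining equation along a jet extension. -/
lemma hasDerivAt_eqn_jet {h : ℝ → ℝ} (hh : ContDiff ℝ ∞ h) {f : ℝ → ℝ} (hf : ContDiff ℝ ∞ f)
    (x : ℝ) : HasDerivAt (eqn (gfun h) ∘ jet 2 f)
      ((h (iteratedDeriv 2 f x)) ^ 2 + iteratedDeriv 3 f x * (x ^ 2 / 2 +
        2 * x * h (iteratedDeriv 2 f x) * deriv h (iteratedDeriv 2 f x))) x := by
  have hd : ∀ i : ℕ, HasDerivAt (iteratedDeriv i f) (iteratedDeriv (i + 1) f x) x := by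
    intro i
    have h1 : DifferentiableAt ℝ (iteratedDeriv i f) x :=
      (hf.differentiable_iteratedDeriv i (by exact_mod_cast WithTop.coe_lt_top _)) x
    have h2 := h1.hasDerivAt
    rwa [← iteratedDeriv_succ] at h2
  have h0 := hd 0
  have h1 := hd 1
  have h2 := hd 2
  have hid := hasDerivAt_id x
  have hhd : HasDerivAt h (deriv h (iteratedDeriv 2 f x)) (iteratedDeriv 2 f x) :=
    (hh.differentiable (by simp) _).hasDerivAt
  have hcomp := hhd.comp x h2
  have e : (eqn (gfun h) ∘ jet 2 f) = fun t => iteratedDeriv 0 f t -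
      (t * iteratedDeriv 1 f t - t ^ 2 / 2 * iteratedDeriv 2 f t -
        t * (h (iteratedDeriv 2 f t)) ^ 2) := by
    funext t
    simp [eqn, gfun, jet]
  rw [e]
  have h3 := h0.fun_sub (((hid.fun_mul h1).fun_sub (((hid.fun_pow 2).div_const 2).fun_mul h2)).fun_sub
    (hid.fun_mul (hcomp.fun_pow 2)))
  refine h3.congr_deriv ?_
  simp only [id_eq, Function.comp_apply, zero_add, Nat.cast_ofNat, Nat.add_one_sub_one, pow_one,
    one_mul, mul_one, Nat.reduceAdd]
  ring

/-- The main computation: in the open set `W` the non-transversality set is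
`{0} × {0} × ℝ × K × (0, ...)`. -/
lemma key_subset {h : ℝ → ℝ} (hh : ContDiff ℝ ∞ h) {z : J 3}
    (hz : z ∈ nonTransverse 2 (graphSet (gfun h))) (hq : 0 < z.2 3)
    (hW : 2 * z.2 3 * (deriv h (z.2 2)) ^ 2 < 1) : h (z.2 2) = 0 := by
  rw [nonTransverse_iff (contDiff_gfun hh) (gfun_add h)] at hz
  obtain ⟨f, x, hf, rfl, hb, hd⟩ := hz
  have h1 := (hasDerivAt_eqn_jet hh hf x).unique hd
  have e2 : (jet 3 f x).2 2 = iteratedDeriv 2 f x := rfl
  have e3 : (jet 3 f x).2 3 = iteratedDeriv 3 f x := rfl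
  rw [e2] at hW ⊢
  rw [e3] at hW hq
  set s := iteratedDeriv 2 f x
  set q := iteratedDeriv 3 f x
  set a := h s
  set b := deriv h s
  have h2 : q * (x + 2 * a * b) ^ 2 + 2 * a ^ 2 * (1 - 2 * q * b ^ 2) = 0 := by
    linear_combination 2 * h1
  have h3 : 0 ≤ q * (x + 2 * a * b) ^ 2 := by positivity
  have h4 : 0 ≤ 2 * a ^ 2 * (1 - 2 * q * b ^ 2) := by
    apply mul_nonneg (by positivity)
    linarith
  have h5 : 2 * a ^ 2 * (1 - 2 * q * b ^ 2) = 0 := by linarith
  rcases mul_eq_zero.mp h5 with h6 | h6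
  · simpa using h6
  · exfalso
    linarith

lemma key_mem {h : ℝ → ℝ} (hh : ContDiff ℝ ∞ h) {κ : ℝ} (hκ : h κ = 0) (q : ℝ) :
    ∃ z ∈ nonTransverse 2 (graphSet (gfun h)), z.2 2 = κ ∧ z.2 3 = q := by
  set f : ℝ → ℝ := fun t => κ * t ^ 2 / 2 + q * t ^ 3 / 6 with hfdef
  have hf : ContDiff ℝ ∞ f := by fun_prop
  have d1 : deriv f = fun t => κ * t + q * t ^ 2 / 2 := by
    funext t
    have h1 : HasDerivAt f (κ * t + q * t ^ 2 / 2) t := by
      have hid := hasDerivAt_id t
      have h3 := ((((hid.fun_pow 2).const_mul κ).div_const 2)).fun_add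
        (((hid.fun_pow 3).const_mul q).div_const 6)
      refine h3.congr_deriv ?_
      simp
      ring
    exact h1.deriv
  have d2 : deriv (fun t => κ * t + q * t ^ 2 / 2) = fun t => κ + q * t := by
    funext t
    have h1 : HasDerivAt (fun t => κ * t + q * t ^ 2 / 2) (κ + q * t) t := by
      have hid := hasDerivAt_id t
      have h3 := (hid.const_mul κ).fun_add (((hid.fun_pow 2).const_mul q).div_const 2)
      refine h3.congr_deriv ?_
      simp
      ring
    exact h1.deriv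
  have d3 : deriv (fun t => κ + q * t) = fun _ => q := by
    funext t
    have h1 : HasDerivAt (fun t => κ + q * t) q t := by
      have hid := hasDerivAt_id t
      have h3 := (hid.const_mul q).const_add κ
      exact h3.congr_deriv (by simp)
    exact h1.deriv
  have i0 : iteratedDeriv 0 f 0 = 0 := by simp [hfdef]
  have i1 : iteratedDeriv 1 f 0 = 0 := by simp [iteratedDeriv_succ, d1]
  have i2 : iteratedDeriv 2 f 0 = κ := by simp [iteratedDeriv_succ, d1, d2]
  have i3 : iteratedDeriv 3 f 0 = q := by simp [iteratedDeriv_succ, d1, d2, d3]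
  refine ⟨jet 3 f 0, ?_, i2, i3⟩
  rw [nonTransverse_iff (contDiff_gfun hh) (gfun_add h)]
  refine ⟨f, 0, hf, rfl, ?_, ?_⟩
  · change iteratedDeriv 0 f 0 = gfun h (jet 2 f 0)
    rw [i0]
    simp [gfun, jet]
  · have h1 := hasDerivAt_eqn_jet hh hf 0
    rw [i2, hκ] at h1
    simpa using h1

/-- **Q1 is false, in the smooth category and in a strong sense.** There is a closed embedded
`C^∞` hypersurface `A ⊆ J^2(ℝ, ℝ)` whose non-transversality set in `J^3(ℝ, ℝ)` is not the union of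
any countable family of submanifolds: each member of the family may be an embedded `C^k`
submanifold of any codimension, with any `0 ≤ k ≤ ∞`, or just a subset which is a topological
manifold in the subspace topology. -/
theorem result : ∃ A : Set (J 2), IsClosed A ∧ (∀ r : ℕ∞, IsSubmanifold r 1 A) ∧
    ∀ 𝒮 : Set (Set (J 3)), 𝒮.Countable →
      (∀ S ∈ 𝒮, IsTopSubmanifold S ∨ ∃ (k : ℕ∞) (c : ℕ), IsSubmanifold k c S) →
      ⋃₀ 𝒮 ≠ nonTransverse 2 A := by
  obtain ⟨K, hKc, hKu, hKi⟩ := exists_closed_uncountable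
  obtain ⟨h, hsupp, hh, -⟩ := hKc.isOpen_compl.exists_contDiff_support_eq (n := ⊤)
  have hzero : ∀ s, h s = 0 ↔ s ∈ K := by
    intro s
    rw [← not_iff_not, ← mem_compl_iff, ← hsupp, Function.mem_support]
  refine ⟨graphSet (gfun h), ?_, isSubmanifold_graph (contDiff_gfun hh) (gfun_add h), ?_⟩
  · exact isClosed_eq (by fun_prop) (contDiff_gfun hh).continuous
  intro 𝒮 h𝒮 hS hU
  set W : Set (J 3) := {z | 0 < z.2 3 ∧ 2 * z.2 3 * (deriv h (z.2 2)) ^ 2 < 1} with hWdef
  have hdc : Continuous (deriv h) := hh.continuous_deriv (by simp)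
  have hW : IsOpen W := by
    apply IsOpen.and
    · exact isOpen_lt (by fun_prop) (by fun_prop)
    · exact isOpen_lt (by fun_prop) (by fun_prop)
  apply hKu
  have hsub : K ⊆ ⋃ S ∈ 𝒮, (fun z : J 3 => z.2 2) '' (S ∩ W) := by
    intro κ hκ
    obtain ⟨z, hz, hz2, hz3⟩ := key_mem hh ((hzero κ).mpr hκ) (1 / (2 * (deriv h κ) ^ 2 + 1))
    rw [← hU] at hz
    obtain ⟨S, hS𝒮, hzS⟩ := hz
    refine mem_iUnion₂.mpr ⟨S, hS𝒮, z, ⟨hzS, ?_⟩, hz2⟩
    change 0 < z.2 3 ∧ 2 * z.2 3 * (deriv h (z.2 2)) ^ 2 < 1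
    rw [hz3, hz2]
    refine ⟨by positivity, ?_⟩
    have hp : 0 < 2 * (deriv h κ) ^ 2 + 1 := by positivity
    rw [show 2 * (1 / (2 * (deriv h κ) ^ 2 + 1)) * (deriv h κ) ^ 2 =
      (2 * (deriv h κ) ^ 2) / (2 * (deriv h κ) ^ 2 + 1) by ring, div_lt_one hp]
    linarith
  refine (h𝒮.biUnion ?_).mono hsub
  intro S hS𝒮
  have hconn : SmallConn S := by
    rcases hS S hS𝒮 with h1 | ⟨k, c, h1⟩
    · exact smallConn_of_isTopSubmanifold h1
    · exact smallConn_of_isSubmanifold h1
  apply countable_image hconn hW hKi (by fun_prop)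
  rintro z ⟨hzS, hz0, hzW⟩
  rw [← hzero]
  refine key_subset hh ?_ hz0 hzW
  rw [← hU]
  exact ⟨S, hS𝒮, hzS⟩

end Pool.Agent.Results.MP_5de00f_gt.SmoothDisproof
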